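import Pool.Agent.W510.CG.Stm

/-! Project CG, part STRICT: the chain of closed groups is strictly increasing. -/

set_option autoImplicit false

namespace Pool.Agent.W138.CG.Strict

open Pool.Agent.W510.CG

lemma e_pos (n : ℕ) : 0 < e n := by
  rw [Finsupp.Colex.lt_iff]
  refine ⟨n, fun j hj => ?_, ?_⟩
  · have h : n ≠ j := ne_of_lt hj
    simp [e, Finsupp.single_apply, h]
  · simp [e]

lemma e_notMem (n : ℕ) : e n ∉ Gam n := by
  intro h
  have := h n le_rfl
  simp [e] at this

lemma w_o_delta (l : L0) : w o (δ l) = l := by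
  unfold o δ
  rw [w_some, zero_sub, v_neg, v_single l 1 one_ne_zero]

lemma w_delta {l m : L0} (h : l < m) : w (δ l) (δ m) = m := by
  unfold δ
  rw [w_some]
  apply v_eq
  · simp [Finsupp.single_apply, h.ne]
  · intro μ hμ
    have h1 : l ≠ μ := (h.trans hμ).ne
    have h2 : m ≠ μ := hμ.ne
    simp [Finsupp.single_apply, h1, h2]

lemma dist {l : L0} (hl : 0 < l) : Dist4 (o : Pt L0) (δ 0) (δ l) none := by
  have h0 : ∀ m : L0, (Finsupp.single m (1:ℤ)) ≠ 0 := fun m => by simp
  refine ⟨?_, ?_, ?_, ?_, ?_, ?_⟩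
  · intro h
    exact h0 0 (Option.some_injective _ h).symm
  · intro h
    exact h0 l (Option.some_injective _ h).symm
  · intro h
    exact absurd h (by simp [o])
  · intro h
    have h2 := Option.some_injective _ h
    have h3 := (Finsupp.single_left_inj (one_ne_zero : (1:ℤ) ≠ 0)).1 h2
    exact hl.ne h3
  · intro h
    exact absurd h (by simp [δ])
  · intro h
    exact absurd h (by simp [δ])

lemma Y1 {l : L0} (hl : 0 < l) : Y (o : Pt L0) (δ 0) (δ l) none = l := by
  unfold Y
  rw [w_none_right, w_none_right, w_delta hl, w_o_delta]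
  simp

lemma Y2 {l : L0} (hl : 0 < l) : Y (o : Pt L0) (δ l) (δ 0) none = 0 := by
  unfold Y
  rw [w_none_right, w_none_right, w_comm (δ l) (δ 0), w_delta hl, w_o_delta]
  simp

lemma notMem_K (n : ℕ) (g : Equiv.Perm (Pt L0)) (h1 : g o = o) (h2 : g (δ 0) = δ (e n))
    (h3 : g (δ (e n)) = δ 0) (h4 : g none = none) : g ∉ K n := by
  intro hg
  have hp := e_pos n
  have h := (hg o (δ 0) (δ (e n)) none).2 ⟨dist hp, by rw [Y1 hp]; exact hp, by
    rw [Y1 hp]; exact e_notMem n⟩
  rw [h1, h2, h3, h4] at h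
  have h5 := h.2.1
  rw [Y2 hp] at h5
  exact lt_irrefl _ h5

/-- exchange of two coordinates -/
noncomputable def φ (l : L0) : (L0 →₀ ℤ) ≃+ (L0 →₀ ℤ) := Finsupp.domCongr (Equiv.swap 0 l)

lemma φ_apply (l : L0) (x : L0 →₀ ℤ) (μ : L0) : φ l x μ = x (Equiv.swap 0 l μ) := by
  simp [φ, Finsupp.domCongr_apply, Finsupp.equivMapDomain_apply]

lemma v_φ {l : L0} (hl : 0 ≤ l) {z : L0 →₀ ℤ} (hz : z ≠ 0) :
    v (φ l z) = v z ∨ (0 ≤ v z ∧ v z ≤ l ∧ 0 ≤ v (φ l z) ∧ v (φ l z) ≤ l) := by
  obtain ⟨h3, h4⟩ := v_spec hz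
  have hz' : φ l z ≠ 0 := by
    intro h
    exact hz ((AddEquiv.map_eq_zero_iff _).1 h)
  obtain ⟨h5, h6⟩ := v_spec hz'
  rcases lt_or_ge l (v z) with h | h
  · left
    have h0 : 0 < v z := hl.trans_lt h
    apply v_eq
    · rw [φ_apply, Equiv.swap_apply_of_ne_of_ne h0.ne' h.ne']
      exact h3
    · intro μ hμ
      rw [φ_apply, Equiv.swap_apply_of_ne_of_ne (h0.trans hμ).ne' (h.trans hμ).ne']
      exact h4 μ hμ
  · rcases lt_or_ge (v z) 0 with h' | h'
    · left
      have hlt : v z < l := h'.trans_le hl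
      apply v_eq
      · rw [φ_apply, Equiv.swap_apply_of_ne_of_ne h'.ne hlt.ne]
        exact h3
      · intro μ hμ
        rw [φ_apply]
        by_cases h7 : μ = 0
        · rw [h7, Equiv.swap_apply_left]
          exact h4 _ hlt
        · by_cases h8 : μ = l
          · rw [h8, Equiv.swap_apply_right]
            exact h4 _ h'
          · rw [Equiv.swap_apply_of_ne_of_ne h7 h8]
            exact h4 _ hμ
    · right
      refine ⟨h', h, ?_, ?_⟩
      · by_contra hlt
        push Not at hlt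
        have e1 := h6 0 hlt
        have e2 := h6 l (hlt.trans_le hl)
        rw [φ_apply, Equiv.swap_apply_left] at e1
        rw [φ_apply, Equiv.swap_apply_right] at e2
        have e3 := h6 (v z) (hlt.trans_le h')
        rw [φ_apply] at e3
        have n1 : v z ≠ 0 := by
          intro h9
          rw [h9] at h3
          exact h3 e2
        have n2 : v z ≠ l := by
          intro h9
          rw [h9] at h3
          exact h3 e1
        rw [Equiv.swap_apply_of_ne_of_ne n1 n2] at e3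
        exact h3 e3
      · by_contra hlt
        push Not at hlt
        rw [φ_apply, Equiv.swap_apply_of_ne_of_ne (hl.trans_lt hlt).ne' hlt.ne'] at h5
        exact h5 (h4 _ (h.trans_lt hlt))

/-- the permutation of the ends -/
noncomputable def gp (l : L0) : Equiv.Perm (Pt L0) := Equiv.optionCongr (φ l).toEquiv

lemma gp_none (l : L0) : gp l none = none := rfl

lemma gp_some (l : L0) (x : L0 →₀ ℤ) : gp l (some x) = some (φ l x) := rfl

lemma gp_delta (l m : L0) : gp l (δ m) = δ (Equiv.swap 0 l m) := by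
  unfold δ
  rw [gp_some]
  congr 1
  simp [φ, Finsupp.domCongr_apply, Finsupp.equivMapDomain_single]

lemma w_diff (h : S_ARI) (n : ℕ) (a b : Pt L0) :
    w (gp (e n) a) (gp (e n) b) - w a b ∈ Gam (n + 1) := by
  obtain ⟨-, -, hmem, hconv, -⟩ := h n
  obtain ⟨-, -, -, hconv', -⟩ := h (n + 1)
  rcases a with _ | x
  · rw [gp_none, w_none_left, w_none_left, sub_zero]
    exact (Gam (n + 1)).zero_mem
  rcases b with _ | y
  · rw [gp_none, w_none_right, w_none_right, sub_zero]
    exact (Gam (n + 1)).zero_mem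
  rw [gp_some, gp_some, w_some, w_some, ← map_sub]
  by_cases hz : x - y = 0
  · rw [hz, map_zero, sub_self]
    exact (Gam (n + 1)).zero_mem
  rcases v_φ (e_pos n).le hz with h1 | ⟨h1, h2, h3, h4⟩
  · rw [h1, sub_self]
    exact (Gam (n + 1)).zero_mem
  · rcases le_total (v (x - y)) (v (φ (e n) (x - y))) with h5 | h5
    · exact hconv' _ (e n) (sub_nonneg.2 h5) ((sub_le_self _ h1).trans h4) hmem
    · rw [← neg_sub]
      exact (Gam (n + 1)).neg_mem
        (hconv' _ (e n) (sub_nonneg.2 h5) ((sub_le_self _ h3).trans h2) hmem)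

lemma Y_diff (h : S_ARI) (n : ℕ) (a b c d : Pt L0) :
    Y (gp (e n) a) (gp (e n) b) (gp (e n) c) (gp (e n) d) - Y a b c d ∈ Gam (n + 1) := by
  have h1 := w_diff h n a d
  have h2 := w_diff h n b c
  have h3 := w_diff h n a b
  have h4 := w_diff h n c d
  have h5 := (Gam (n + 1)).sub_mem ((Gam (n + 1)).sub_mem ((Gam (n + 1)).add_mem h1 h2) h3) h4
  unfold Y
  convert h5 using 1
  abel

lemma pres (h : S_ARI) (n : ℕ) {y y' : L0} (hd : y' - y ∈ Gam n) (hy : 0 < y) (hn : y ∉ Gam n) :
    0 < y' ∧ y' ∉ Gam n := by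
  obtain ⟨-, -, -, hconv, -⟩ := h n
  constructor
  · by_contra h0
    push Not at h0
    apply hn
    apply hconv y (y - y') hy.le
    · have : y ≤ y + (-y') := le_add_of_nonneg_right (neg_nonneg.2 h0)
      rwa [← sub_eq_add_neg] at this
    · rw [← neg_sub]
      exact (Gam n).neg_mem hd
  · intro h1
    apply hn
    have h2 := (Gam n).sub_mem h1 hd
    rwa [sub_sub_cancel] at h2

theorem main (h : S_ARI) : S_STRICT := by
  intro n
  refine ⟨gp (e n), ?_, ?_⟩
  · intro a b c d
    have hY := Y_diff h n a b c d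
    have hinj := (gp (e n)).injective
    have hD : Dist4 (gp (e n) a) (gp (e n) b) (gp (e n) c) (gp (e n) d) ↔ Dist4 a b c d := by
      unfold Dist4
      rw [hinj.ne_iff, hinj.ne_iff, hinj.ne_iff, hinj.ne_iff, hinj.ne_iff, hinj.ne_iff]
    constructor
    · rintro ⟨h1, h2, h3⟩
      have hY' : Y a b c d - Y (gp (e n) a) (gp (e n) b) (gp (e n) c) (gp (e n) d) ∈
          Gam (n + 1) := by
        rw [← neg_sub]
        exact (Gam (n + 1)).neg_mem hY
      exact ⟨hD.1 h1, pres h (n + 1) hY' h2 h3⟩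
    · rintro ⟨h1, h2, h3⟩
      exact ⟨hD.2 h1, pres h (n + 1) hY h2 h3⟩
  · apply notMem_K n
    · show gp (e n) (some 0) = some 0
      rw [gp_some, map_zero]
    · rw [gp_delta, Equiv.swap_apply_left]
    · rw [gp_delta, Equiv.swap_apply_right]
    · rfl

theorem main1 : S_NETOP := by
  classical
  intro n hn
  have hp := e_pos n
  have hd := dist hp
  have hg : Equiv.swap (δ 0 : Pt L0) (δ (e n)) ∉ K n := by
    apply notMem_K n
    · exact Equiv.swap_apply_of_ne_of_ne hd.1 hd.2.1
    · exact Equiv.swap_apply_left _ _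
    · exact Equiv.swap_apply_right _ _
    · exact Equiv.swap_apply_of_ne_of_ne hd.2.2.2.2.1.symm hd.2.2.2.2.2.symm
  apply hg
  rw [hn]
  exact Subgroup.mem_top _

theorem main2 : S_CLOSED := by
  classical
  intro n σ hσ a b c d
  obtain ⟨g, hg, hA⟩ := hσ {a, b, c, d}
  rw [← hA a (by simp), ← hA b (by simp), ← hA c (by simp), ← hA d (by simp)]
  exact hg a b c d

theorem main3 : S_ISOK := by
  intro n g hg a b c d
  have hinj := g.injective
  have hD : Dist4 (g a) (g b) (g c) (g d) ↔ Dist4 a b c d := by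
    unfold Dist4
    rw [hinj.ne_iff, hinj.ne_iff, hinj.ne_iff, hinj.ne_iff, hinj.ne_iff, hinj.ne_iff]
  constructor
  · rintro ⟨h1, h2, h3⟩
    rw [hg a b c d (hD.1 h1)] at h2 h3
    exact ⟨hD.1 h1, h2, h3⟩
  · rintro ⟨h1, h2, h3⟩
    have := hg a b c d h1
    refine ⟨hD.2 h1, ?_, ?_⟩
    · rw [this]; exact h2
    · rw [this]; exact h3

end Pool.Agent.W138.CG.Strict
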